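import Pool.Agent.Y992.HE.Stm
import Pool.Agent.Y434.HL.BFS

/-!
Project HE (owner helper992), parts NT and BFS: the numbers of forward paths and the crude bound
along paths (adapted from Pool/Agent/Y434/HL/BFS.lean by helper434).
-/

set_option autoImplicit false

namespace Pool.Agent.Y388.HE

open Finset Pool.Agent.H983R2.GC Pool.Agent.W341.UG Pool.Agent.Y992.HL Pool.Agent.Y992.HE
open Pool.Agent.Y434.HL (np np_nonneg ad ad_nonneg ad_succ deg_le)

theorem t_NT : Pool.Agent.Y992.HE.S_NT := by
  intro V _ _ G D Δ K κ hG hΔ R v hv
  classical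
  refine ⟨?_, ?_, ?_⟩
  · intro i
    induction i with
    | zero =>
      rw [pow_zero]
      refine le_of_eq ?_
      calc ∑ y, nt G D R v 0 y = ∑ y, if y = v then 1 else 0 :=
            sum_congr rfl fun y _ => by rw [nt]
        _ = 1 := by rw [sum_ite_eq' univ v, if_pos (mem_univ v)]
    | succ i ih =>
      calc ∑ y, nt G D R v (i + 1) y ≤ ∑ y, ∑ x, if G.Adj x y then nt G D R v i x else 0 := by
            refine sum_le_sum fun y _ => ?_
            rw [nt, ← sum_filter]
            split_ifs
            · exact le_rfl
            · exact Nat.zero_le _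
        _ = ∑ x, ∑ y, if G.Adj x y then nt G D R v i x else 0 := sum_comm
        _ ≤ ∑ x, Δ * nt G D R v i x := by
            refine sum_le_sum fun x _ => ?_
            rw [← sum_filter, sum_const, smul_eq_mul]
            refine Nat.mul_le_mul_right _ ?_
            refine le_trans (card_le_card ?_) (hΔ x)
            intro y hy
            rw [mem_filter] at hy
            rw [mem_nb]
            exact ⟨mem_univ _, hy.2⟩
        _ = Δ * ∑ x, nt G D R v i x := by rw [mul_sum]
        _ ≤ Δ * Δ ^ i := Nat.mul_le_mul_left _ ih
        _ = Δ ^ (i + 1) := by rw [pow_succ']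
  · intro i
    induction i with
    | zero =>
      intro y hy
      rw [nt] at hy
      have h1 : y = v := by
        by_contra h
        rw [if_neg h] at hy
        exact hy rfl
      subst h1
      exact ⟨(hG.zero y y).2 rfl, fun h => absurd h (by omega), fun z => Nat.le_refl _⟩
    | succ i ih =>
      intro y hy
      rw [nt] at hy
      have h1 : y ∈ R ∧ D v y = i + 1 := by
        by_contra h
        rw [if_neg h] at hy
        exact hy rfl
      rw [if_pos h1] at hy
      obtain ⟨x, hx, hx0⟩ := exists_ne_zero_of_sum_ne_zero hy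
      rw [mem_filter] at hx
      obtain ⟨-, -, h4⟩ := ih x hx0
      refine ⟨h1.2, fun _ => h1.1, fun z => ?_⟩
      have h5 := h4 z
      have h6 : D x z ≤ D y z + 1 := by
        rw [hG.symm x z, hG.symm y z]
        exact hG.lip z x y hx.2
      omega
  · intro k w hw
    have h1 : ∀ i, i ≤ k → ∀ y, nt G D (R.erase w) v i y = nt G D R v i y := by
      intro i
      induction i with
      | zero =>
        intro _ y
        rw [nt, nt]
      | succ i ih =>
        intro hi y
        rw [nt, nt]
        have h2 : (y ∈ R.erase w ∧ D v y = i + 1) ↔ (y ∈ R ∧ D v y = i + 1) := by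
          constructor
          · rintro ⟨h3, h4⟩
            exact ⟨mem_of_mem_erase h3, h4⟩
          · rintro ⟨h3, h4⟩
            refine ⟨mem_erase.2 ⟨?_, h3⟩, h4⟩
            rintro rfl
            omega
        by_cases h3 : y ∈ R ∧ D v y = i + 1
        · rw [if_pos h3, if_pos (h2.2 h3)]
          exact sum_congr rfl fun x _ => ih (by omega) x
        · rw [if_neg h3, if_neg (fun h => h3 (h2.1 h))]
    intro y
    by_cases hy : y = w
    · rw [if_pos hy, nt, if_neg]
      rintro ⟨h2, -⟩
      exact (mem_erase.1 h2).1 hy
    · rw [if_neg hy, nt, nt]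
      by_cases h3 : y ∈ R ∧ D v y = k + 1
      · rw [if_pos h3, if_pos ⟨mem_erase.2 ⟨hy, h3.1⟩, h3.2⟩]
        exact sum_congr rfl fun x _ => h1 k le_rfl x
      · rw [if_neg h3, if_neg (fun h => h3 ⟨mem_of_mem_erase h.1, h.2⟩)]

section

variable {V : Type} [Fintype V] [DecidableEq V]

/-- The number of forward paths of length `k + 1`, counted from both ends. -/
theorem np_eq_PN (G : SimpleGraph V) (D : V → V → ℕ) (Δ K : ℕ) (κ : ℝ) (hG : GE G D κ K)
    (hΔ : ∀ w, (nb G univ w).card ≤ Δ) (R : Finset V) (v : V) (hv : v ∉ R) (k : ℕ) :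
    np G D R v (k + 1) v = (PN G D R v k : ℝ) := by
  classical
  have hnt := (t_NT V G D Δ K κ hG hΔ R v hv).2.1
  have key : ∀ d i : ℕ, i + d = k + 1 →
      ∑ x, (nt G D R v i x : ℝ) * np G D R v d x = (PN G D R v k : ℝ) := by
    intro d
    induction d with
    | zero =>
      intro i hi
      have hi' : i = k + 1 := by omega
      rw [hi', PN, Nat.cast_sum]
      refine sum_congr rfl fun x _ => ?_
      rw [np, mul_one]
    | succ d ih =>
      intro i hi
      rw [← ih (i + 1) (by omega)]
      have e1 : ∀ x, (nt G D R v i x : ℝ) * np G D R v (d + 1) x =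
          ∑ y, if G.Adj x y ∧ y ∈ R ∧ D v y = i + 1 then
            (nt G D R v i x : ℝ) * np G D R v d y else 0 := by
        intro x
        by_cases h0 : nt G D R v i x = 0
        · rw [h0, Nat.cast_zero, zero_mul]
          refine (sum_eq_zero fun y _ => ?_).symm
          rw [zero_mul, ite_self]
        · have hx := (hnt i x h0).1
          rw [np, mul_sum, ← sum_filter]
          refine sum_congr ?_ fun _ _ => rfl
          ext y
          rw [mem_filter, mem_filter, hx]
          constructor
          · rintro ⟨h3, h4, h5⟩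
            exact ⟨mem_univ _, h4, h3, h5⟩
          · rintro ⟨-, h4, h3, h5⟩
            exact ⟨h3, h4, h5⟩
      rw [sum_congr rfl fun x _ => e1 x, sum_comm]
      refine sum_congr rfl fun y _ => ?_
      rw [nt]
      by_cases h3 : y ∈ R ∧ D v y = i + 1
      · rw [if_pos h3, Nat.cast_sum, sum_mul, sum_filter]
        refine sum_congr rfl fun x _ => ?_
        by_cases h4 : G.Adj x y
        · rw [if_pos ⟨h4, h3⟩, if_pos h4]
        · rw [if_neg (fun h => h4 h.1), if_neg h4]
      · rw [if_neg h3, Nat.cast_zero, zero_mul]
        refine sum_eq_zero fun x _ => ?_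
        rw [if_neg (fun h => h3 h.2)]
  have h1 := key (k + 1) 0 (by omega)
  rw [← h1]
  have e2 : ∀ x, (nt G D R v 0 x : ℝ) * np G D R v (k + 1) x =
      if x = v then np G D R v (k + 1) x else 0 := by
    intro x
    rw [nt]
    by_cases hx : x = v
    · rw [if_pos hx, if_pos hx, Nat.cast_one, one_mul]
    · rw [if_neg hx, if_neg hx, Nat.cast_zero, zero_mul]
  rw [sum_congr rfl fun x _ => e2 x, sum_ite_eq' univ v, if_pos (mem_univ v)]

end

theorem t_BFS (hO : S_OSCL) (hB : S_TELB) : Pool.Agent.Y992.HE.S_BFS := by
  intro V C _ _ _ _ G D c0 s Δ N k j K ε A om β hs hε hA hβ hG hK hΔ hεΔ hIB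
  intro R L v b c F W hRc hvR hSl hSlP hWR hLip hcase
  classical
  have hom : 0 ≤ om := by rcases hcase with h | h <;> (have h0 := h.1; norm_num [h0])
  have hs0 : (0 : ℝ) < s := by
    have : 0 < s := by omega
    exact_mod_cast this
  obtain ⟨ka, hka⟩ : ∃ ka : ℝ, ka = 2 * β := ⟨_, rfl⟩
  have hka0 : 0 ≤ ka := by rw [hka]; positivity
  have key : ∀ d i : ℕ, i + d = k + 1 → ∀ x, D v x = i → (∀ z, D v z ≤ D x z + i) →
      ∀ R' : Finset V, R' ⊆ R → x ∉ R' →
      R'.card ≤ N + 1 → (1 ≤ i → R'.card ≤ N) →
      ∀ L' : V → Finset C, Sl G s R' L' → SlP G s R' (nb G R' x) L' →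
      ∀ (F : (V → C) → ℝ) (W' : Finset V), Lip W' F → W' ⊆ R' → W' ⊆ W → ∀ b c : C,
      |EE G c0 R' (era L' (nb G R' x) b) F - EE G c0 R' (era L' (nb G R' x) c) F| ≤
        ad ε A om ka d + (2 / (s : ℝ)) ^ d * np G D R v d x * A := by
    intro d
    induction d with
    | zero =>
      intro i hi x hvx hx R' hR' hxR' _ hcN L' hS hSP F W' hF hW' hW'W b c
      have hiK : i = k + 1 := by omega
      have h1 : ∀ w ∈ W', j ≤ D x w := by
        intro w hw
        rcases hcase with h | h
        · rw [h.2]; exact Nat.zero_le _
        · have h2 := h.2.2 w (hW'W hw)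
          have h3 := hx w
          omega
      have h2 := hIB R' L' x b c F W' (hcN (by omega)) hxR' hS hSP hW' hF h1
      have h3 : ad ε A om ka 0 + (2 / (s : ℝ)) ^ 0 * np G D R v 0 x * A = A := by
        rw [np]
        unfold ad
        simp
      rw [h3]
      exact h2
    | succ d ih =>
      intro i hi x hvx hx R' hR' hxR' hc1 _ L' hS hSP F W' hF hW' hW'W b c
      have hik : i ≤ k := by omega
      obtain ⟨X, hX⟩ : ∃ X : V → ℝ, ∀ g, X g = if D v g = D v x + 1 then
          ad ε A om ka d + (2 / (s : ℝ)) ^ d * np G D R v d g * A else A := ⟨_, fun _ => rfl⟩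
      have hX0 : ∀ g, 0 ≤ X g := fun g => by
        rw [hX]
        have h1 := ad_nonneg hε hA hom hka0 d
        have h2 := np_nonneg G D R v d g
        split_ifs
        · positivity
        · exact hA
      -- the claim for the neighbours
      have hg1 : ∀ g ∈ nb G R' x, ∀ L'' : V → Finset C, Sl G s R' L'' →
          ∀ c' : C, |uu G c0 R' L'' F g c'| ≤ om + X g := by
        intro g hg L'' hS'' c'
        have hgR' : g ∈ R' := nb_subset G R' x hg
        have hxg : G.Adj x g := ((mem_nb G R' x g).1 hg).2
        have hlip1 : D v g ≤ D v x + 1 := hG.lip v g x hxg.symm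
        have hcard : (R'.erase g).card ≤ N := by
          rw [card_erase_of_mem hgR']
          omega
        have h1 := hO V C G c0 s R' L'' g F W' (X g) hs (hX0 g) hgR' hS'' hF (by
          intro F' hF' a a'
          by_cases hf : D v g = D v x + 1
          · have hgl : ∀ z, D v z ≤ D g z + (i + 1) := by
              intro z
              have h3 := hx z
              have h5 : D x z ≤ D g z + 1 := by
                rw [hG.symm x z, hG.symm g z]
                exact hG.lip z x g hxg
              omega
            have h2 := ih (i + 1) (by omega) g (by rw [hf, hvx]) hgl (R'.erase g)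
              ((erase_subset _ _).trans hR') (notMem_erase _ _) (by omega) (fun _ => hcard)
              L'' (Sl_del G s R' L'' g hgR' hS'') (SlP_del G s R' L'' g hgR' hS'') F'
              (W'.erase g) hF' (erase_subset_erase _ hW') ((erase_subset _ _).trans hW'W) a a'
            rw [nb_erase_self] at h2
            rw [hX, if_pos hf]
            exact h2
          · have h2 := hIB (R'.erase g) L'' g a a' F' (W'.erase g) hcard (notMem_erase _ _)
              (Sl_del G s R' L'' g hgR' hS'') (SlP_del G s R' L'' g hgR' hS'')
              (erase_subset_erase _ hW') hF' (by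
                intro w hw
                have hwW : w ∈ W := hW'W (mem_of_mem_erase hw)
                rcases hcase with h | h
                · rw [h.2]; exact Nat.zero_le _
                · have h3 := h.2.2 w hwW
                  have h4 := hx w
                  have h5 : D x w ≤ D g w + 1 := by
                    rw [hG.symm x w, hG.symm g w]
                    exact hG.lip w x g hxg
                  omega)
            rw [nb_erase_self] at h2
            rw [hX, if_neg hf]
            exact h2)
        rcases hcase with h | h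
        · rw [h.1]
          exact h1.2.2 c'
        · have h2 : g ∉ W' := by
            intro hgW
            have := h.2.2 g (hW'W hgW)
            omega
          rw [h.1, zero_add]
          exact (h1.1 h2).2 c'
      have hT : ∀ c' : C, |EE G c0 R' (era L' (nb G R' x) c') F - EE G c0 R' L' F| ≤
          1 / (s : ℝ) * ∑ g ∈ nb G R' x, (om + X g) := by
        intro c'
        refine hB V C G c0 s R' L' F c' (fun g => om + X g) (nb G R' x) hs (nb_subset _ _ _)
          hS hSP (fun g _ => add_nonneg hom (hX0 g)) (fun T' hT' g hg _ => ?_)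
        exact hg1 g hg _ (Sl_era G s R' T' L' c' hS fun w hw => hSP w (hT' hw)) c'
      have hdeg : 2 / (s : ℝ) * (((nb G R' x).filter fun g => D v g = D v x + 1).card : ℝ) ≤
          2 / ε := by
        have h1 : (((nb G R' x).filter fun g => D v g = D v x + 1).card : ℝ) ≤ Δ := by
          have h2 : (nb G R' x).card ≤ (nb G univ x).card := card_le_card fun y hy => by
            rw [mem_nb] at hy ⊢
            exact ⟨mem_univ _, hy.2⟩
          exact_mod_cast ((card_filter_le _ _).trans h2).trans (hΔ x)
        exact deg_le hs0 hε h1 hεΔ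
      have hback : (((nb G R' x).filter fun g => ¬ D v g = D v x + 1).card : ℝ) ≤
          β * s := by
        exact hG.back v x (by omega) ((nb G R' x).filter fun g => ¬ D v g = D v x + 1) (by
          intro y hy
          rw [mem_filter, mem_nb] at hy
          refine ⟨hy.1.2, ?_⟩
          have := hG.lip v y x hy.1.2.symm
          omega)
      have hcnt : ∑ g ∈ (nb G R' x).filter (fun g => D v g = D v x + 1), np G D R v d g ≤
          np G D R v (d + 1) x := by
        rw [np]
        refine sum_le_sum_of_subset_of_nonneg ?_ fun y _ _ => np_nonneg G D R v d y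
        intro y hy
        rw [mem_filter, mem_nb] at hy
        rw [mem_filter]
        exact ⟨hR' hy.1.1, hy.1.2, hy.2⟩
      have hmain : |EE G c0 R' (era L' (nb G R' x) b) F - EE G c0 R' (era L' (nb G R' x) c) F| ≤
          2 / (s : ℝ) * ∑ g ∈ nb G R' x, (om + X g) := by
        have h1 := hT b
        have h2 := hT c
        rw [abs_sub_comm] at h2
        calc _ ≤ _ := abs_sub_le _ (EE G c0 R' L' F) _
          _ ≤ _ := add_le_add h1 h2
          _ = _ := by ring
      refine hmain.trans ?_
      rw [← sum_filter_add_sum_filter_not (nb G R' x) (fun g => D v g = D v x + 1)]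
      have e1 : ∑ g ∈ (nb G R' x).filter (fun g => D v g = D v x + 1), (om + X g) =
          (((nb G R' x).filter fun g => D v g = D v x + 1).card : ℝ) *
            (om + ad ε A om ka d) + (2 / (s : ℝ)) ^ d * A *
            ∑ g ∈ (nb G R' x).filter (fun g => D v g = D v x + 1), np G D R v d g := by
        rw [mul_sum, ← nsmul_eq_mul, ← sum_const, ← sum_add_distrib]
        refine sum_congr rfl fun g hg => ?_
        rw [mem_filter] at hg
        rw [hX, if_pos hg.2]
        ring
      have e2 : ∑ g ∈ (nb G R' x).filter (fun g => ¬ D v g = D v x + 1), (om + X g) =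
          (((nb G R' x).filter fun g => ¬ D v g = D v x + 1).card : ℝ) * (om + A) := by
        rw [← nsmul_eq_mul, ← sum_const]
        refine sum_congr rfl fun g hg => ?_
        rw [mem_filter] at hg
        rw [hX, if_neg hg.2]
      rw [e1, e2, ad_succ]
      have hp1 : 0 ≤ om + ad ε A om ka d := add_nonneg hom (ad_nonneg hε hA hom hka0 d)
      have hp2 : 0 ≤ 2 / (s : ℝ) * ((2 / (s : ℝ)) ^ d * A) := by positivity
      have hp3 : 0 ≤ 2 / (s : ℝ) * (om + A) := by positivity
      have f1 := mul_le_mul_of_nonneg_right hdeg hp1
      have f2 := mul_le_mul_of_nonneg_left hcnt hp2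
      have f3 := mul_le_mul_of_nonneg_left hback hp3
      have f4 : 2 / (s : ℝ) * (om + A) * (β * s) = ka * (om + A) := by
        rw [hka]
        field_simp
      rw [f4] at f3
      have f5 : (2 / (s : ℝ)) ^ (d + 1) = (2 / (s : ℝ)) ^ d * (2 / (s : ℝ)) := pow_succ _ _
      rw [f5]
      linarith
  have h1 := key (k + 1) 0 (by omega) v ((hG.zero v v).2 rfl) (fun z => Nat.le_refl _)
    R subset_rfl hvR hRc (fun h => by omega) L hSl hSlP F W hLip hWR subset_rfl b c
  refine h1.trans (le_of_eq ?_)
  rw [np_eq_PN G D Δ K (β * s) hG hΔ R v hvR k]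
  unfold ad
  rw [hka]

end Pool.Agent.Y388.HE
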